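import Pool.Agent.H13.Gon

namespace Pool.Agent.Results.MP_30555c_co.Prism
open Pool.Agent.H13.Gon

/-- The multigraph with end maps `s`, `t` is loopless and connected. -/
def IsGraph {V E : Type} (s t : E → V) : Prop :=
  (∀ e, s e ≠ t e) ∧ (SimpleGraph.fromRel fun a b => ∃ e, s e = a ∧ t e = b).Connected

/-- End map of the Cartesian product: edges `(e, h)` and `(g, e')`. -/
def box {V E V' E' : Type} (s : E → V) (s' : E' → V') : E × V' ⊕ V × E' → V × V'
  | .inl p => (s p.1, p.2)
  | .inr p => (p.1, s' p.2)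

theorem result : ∃ (V E V' E' : Type) (_ : Fintype V) (_ : Fintype E) (_ : Fintype V')
    (_ : Fintype E') (_ : DecidableEq V) (_ : DecidableEq V') (s t : E → V) (s' t' : E' → V'),
    IsGraph s t ∧ Fintype.card E + 1 = Fintype.card V ∧ IsGraph s' t' ∧
    gon (box s s') (box t t') < min (Fintype.card V') (Fintype.card V * gon s' t') := by
  refine ⟨Fin 2, Fin 1, Fin 6, Fin 8, inferInstance, inferInstance, inferInstance, inferInstance,
    inferInstance, inferInstance, ![0], ![1], ![0, 0, 0, 0, 0, 1, 1, 1], ![1, 1, 2, 3, 4, 5, 5, 5],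
    ⟨by decide +kernel, by decide +kernel⟩, rfl, ⟨by decide +kernel, by decide +kernel⟩,
    (ub _ _ (fun p => ![![2, 0, 0, 0, 0, 0], ![1, 1, 0, 0, 0, 1]] p.1 p.2) 5 (fun p q =>
      dg (![![0, 18764997398785, 18760703479825, 18696278966545, 17665486754065, 18764997398785],
        ![0, 0, 18760703479825, 18696278966545, 17665486754065, 0]] p.1 p.2) (6 * q.1 + q.2))
      (by decide +kernel)).trans_lt (lt_min (by simp) ?_)⟩
  have := lb (n := 5) ![0, 0, 0, 0, 0, 1, 1, 1] ![1, 1, 2, 3, 4, 5, 5, 5] 1
    [6275496146238122754048, 23708899060066895790112, 23708899061239438639106,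
    23708899061243733606657, 23708899061308158119937, 23708899062338950332417]
    (by decide +kernel) (by decide +kernel)
  rw [Fintype.card_fin]
  omega

end Pool.Agent.Results.MP_30555c_co.Prism
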